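import Pool.Agent.H780.NV.Res
import Pool.Graph.R_pool_sql_team_seeded_63374d34.Results.MP_aeade1_gt.RoundRegions

/-!
# Sharp volume bounds for the part of a filling near its boundary sphere, complete fillings

Let `n = d + 1 ≥ 2`.  The library proves (RoundRegions) that round caps of radius `arcsin s` of `S^n`,
with `s` in an explicit range, and their Lipschitz regions, are minimal among the compact oriented
fillings of their boundary spheres.  Here the volume of the whole filling is replaced by the volume
of the set of the points close to the boundary: for caps of radius `ρ`, of the points at distance less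
than `ρ` from the boundary; for regions, of the points `q` with `d(q, x) < r(x)` for some boundary point
`x`, where `r(x)` is at least the distance of `F x` from the centre of the cap.  This is sharp, as for
the cap itself only one point is at distance `ρ` from the boundary.  Nothing is assumed about the rest
of `M`, which may be noncompact, nonorientable, have further boundary components or not be a manifold:
`M` is a metric space with compact closed balls, such as a complete Riemannian manifold.  The volume of
the points far from the boundary is to be added to the known lower bounds.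

Proof.  The family `g_θ` of `1`-Lipschitz functions on `M` with the boundary values `arcsin ⟨F x, θ⟩` of
the calibration is replaced by its truncation to `[-h, h]`, where `h` is the largest of the numbers
`r(x) - d(q, x)`, and `0`.  As truncation is monotone and `1`-Lipschitz, the truncated functions are
`1`-Lipschitz and satisfy the mirror inequality `g_θ(q) - g_θ'(q) ≤ 2 arcsin (s ⟨e, θ⟩)`, which is what is
needed for the map `X = Z⁻¹ (∫ g_θ θ dθ)`, and they have the same boundary values because of
`|arcsin ⟨F x, θ⟩| ≤ arcsin |F x| ≤ r(x)`.  The calibration form is bounded by the volume form of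
`{h > 0}`, and Stokes' theorem holds on `{h > 0}` because all functions are bounded by multiples of `h`
and `{h ≥ δ}` is compact for `δ > 0`.
-/

set_option autoImplicit false

open MeasureTheory Metric Set InnerProductGeometry

namespace Pool.Agent.Results.MP_aeade1_gt.NearVolume

open Pool.Agent.H241R3.FV Pool.Agent.N526.CP Pool.Agent.N979.CP Pool.Agent.H780.NV
open Pool.Agent.Results.MP_aeade1_gt.RoundRegions (Adm mapVol setVol)

/-- `F` is a Lipschitz map of the closed unit ball to the closed ball of radius `s`, i.e. to the round
cap of radius `arcsin s`; the distances in `M` of the boundary points are at least the distances in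
the sphere of their images; `r x > 0` is at least the distance of `F x` from the centre of the cap. -/
structure Dominates {d : ℕ} {M : Type} [MetricSpace M] (bd : Sph (d + 1) → M) (s : ℝ)
    (F : E (d + 1) → E (d + 1)) (r : Sph (d + 1) → ℝ) : Prop where
  lip : ∃ L : NNReal, LipschitzOnWith L F (closedBall 0 1)
  range : ∀ y ∈ closedBall (0 : E (d + 1)) 1, ‖F y‖ ≤ s
  dist_le : ∀ x y : Sph (d + 1), hdist (F x) (F y) ≤ dist (bd x) (bd y)
  radius : ∀ x : Sph (d + 1), 0 < r x ∧ Real.arcsin ‖F x‖ ≤ r x
  bdd : ∃ B : ℝ, ∀ x, r x ≤ B

/-- The volume of the round cap of radius `ρ` of `S^(d+1)`. -/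
noncomputable def capVol (d : ℕ) (ρ : ℝ) : ENNReal :=
  ENNReal.ofReal ((sig (d + 1)).real univ * ∫ t in (0 : ℝ)..ρ, Real.sin t ^ d)

/-- The volume of the round collar `{ρ ≤ r ≤ π/2}` of the boundary of the hemisphere. -/
noncomputable def collarVol (d : ℕ) (ρ : ℝ) : ENNReal :=
  ENNReal.ofReal ((sig (d + 1)).real univ * ∫ t in ρ..(Real.pi / 2), Real.sin t ^ d)

/-- Let `d ≥ 1`, let `s > 0` be admissible, let `M` be a metric space with compact closed balls, for
example a complete Riemannian manifold, and let the subset `N` of `M` be an oriented Riemannian manifold
with boundary `bd : S^d → M` (`N = M` if `M` is itself oriented and has no other boundary).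
(1) If `F` maps the unit ball to the cap of radius `arcsin s`, the distances in `M` of the boundary
points are at least the distances in `S^(d+1)` of their images, and `N` contains the set of the points
at distance less than `r x` from some boundary point `bd x`, then the volume of this set is at least
the oriented volume of `F`; if `F` is injective on the open ball and its Jacobian is almost everywhere
nonnegative, this is the volume of the image.
(2) Let `sin ρ = s`, and let `N` contain the points at distance less than `ρ` from the boundary sphere.
If `M` has at least the boundary distances of the round cap of radius `ρ`, then the volume of the set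
of these points is at least the volume of the cap.
(3) If the union of `M` and of the round collar `{ρ ≤ r ≤ π/2}` is a nonshortcutting filling of the
round sphere `S^d`, then the volume of the set of these points plus the volume of the collar is at least
the volume `vol(S^(d+1)) / 2` of the hemisphere. -/
theorem result (d : ℕ) (hd : 1 ≤ d) (s : ℝ) (h0 : 0 < s) (hs : Adm d s)
    (M : Type) [MetricSpace M] [ProperSpace M] (bd : Sph (d + 1) → M) (N : Set M)
    (S : NFill (d + 1) M bd N) :
    (∀ (F : E (d + 1) → E (d + 1)) (r : Sph (d + 1) → ℝ), Dominates bd s F r → near bd r ⊆ N →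
      ENNReal.ofReal (mapVol F) ≤ S.part (near bd r) ∧
        (InjOn F (ball 0 1) →
          (∀ᵐ y ∂(volume.restrict (ball (0 : E (d + 1)) 1)), 0 ≤ (fderiv ℝ F y).det) →
          ENNReal.ofReal (setVol (F '' ball 0 1)) ≤ S.part (near bd r))) ∧
    ∀ ρ : ℝ, 0 < ρ → ρ < Real.pi / 2 → Real.sin ρ = s → (near bd fun _ => ρ) ⊆ N →
      ((∀ x y, capDist ρ x y ≤ dist (bd x) (bd y)) → capVol d ρ ≤ S.part (near bd fun _ => ρ)) ∧
      (RoundCol bd ρ → (volume : Measure (E (d + 2))).toSphere univ / 2 ≤
        S.part (near bd fun _ => ρ) + collarVol d ρ) := by
  have hG : Good2 d s := Fin.good2_all hd h0 hs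
  have key : ∀ r : Sph (d + 1) → ℝ, (∀ x, 0 < r x) → near bd r ⊆ N →
      ∃ S' : NFill (d + 1) M bd (near bd r), S'.vol = S.part (near bd r) := fun r hr hN =>
    exists_restr S (N := near bd r) isOpen_near hN (fun x => ⟨x, by rw [dist_self]; exact hr x⟩)
  refine ⟨fun F r hF hN => ?_, fun ρ hρ0 hρ1 hρ hN => ?_⟩
  · obtain ⟨⟨L, hL⟩, hr, hbd, hrad, B, hB⟩ := hF
    obtain ⟨S', hS'⟩ := key r (fun x => (hrad x).1) hN
    rw [← hS']
    have h : ENNReal.ofReal (mapVol F) ≤ S'.vol :=
      near_region hd hG S' F L hL hr hbd hB fun x => (hrad x).2
    refine ⟨h, fun hinj hdet => ?_⟩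
    have e : setVol (F '' ball 0 1) = mapVol F := (INJF2.t d F L hL hinj hdet).symm
    rwa [e]
  · subst hρ
    obtain ⟨S', hS'⟩ := key (fun _ => ρ) (fun _ => hρ0) hN
    rw [← hS']
    exact ⟨near_cap hd hρ0 hρ1 hG S', near_hemi hd hρ0 hρ1 hG S'⟩

end Pool.Agent.Results.MP_aeade1_gt.NearVolume
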