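import Pool.Agent.H780.HG.Min
import Pool.Agent.H780.HG.GLU
import Pool.Agent.H780.HG.HLEN
import Pool.Agent.H780.HG.FILLG
import Pool.Agent.H780.HG.HEP
import Pool.Agent.H780.HG.GRET
import Pool.Agent.H780.HG.GEO
import Pool.Agent.H780.RO.Anti
import Pool.Agent.H780.RO.ARC
import Pool.Agent.H780.RO.CONE

/-!
# Fillings of round spheres which are round outside a large convex region, in high dimensions

Let `0 < R < π/2`.  There is a number `n₀`, depending only on `R`, with `n₀ = 2` if `sin² R ≤ 5/41`
(that is, `R ≤ 20.4°`), such that for `n = d + 1 ≥ n₀` the following holds.  Let `H` be the closed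
hemisphere of `S^n` with pole `m`, let `D` be a closed convex subset of `H` which is contained in an open
ball of radius `R` of `S^n` with centre `c`, for instance the intersection of `H` with a closed ball of
smaller radius.  The centre `c` is arbitrary: it may be on the boundary of `H` or outside of `H`, and `D`
may meet the boundary of `H`.  Let `K` be a Riemannian manifold, of any topology, orientable or not, with
boundary a sphere onto which `K` does not retract, and let `M` be the union of `H` without the interior of
`D` and of `K`, glued along the boundary of `D`.  If antipodal points of the boundary sphere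
of `H` have distance at least `π` in `M`, in particular if this sphere has no shortcuts in `M`, then the volume of `K` is at least that of `D`; so the volume of `M` is at least that of the hemisphere.
If the volumes are equal, then `K` is isometric to `D`.

The library contains the case where `D` is a ball contained in `H` (LargeBalls).  So in high dimensions
the inequality of Gromov holds for all fillings which are round outside a ball of radius less than `R`
with any centre, in particular a centre on the boundary sphere.

Proof.  As `D` is convex, the great circle through two boundary points `a`, `b` of `D` does not meet the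
interior of `D` beyond `a` and `b`, and it meets the boundary of `H` in antipodal points; this gives `d_K(a, b) ≥ d(a, b)` (`RO`).  Now
glue the complement of `D` in the ball `B` of radius `R` about `c` (in the whole sphere) to `K` along
`∂D`.  The union is, with a suitable metric, a filling with Riemannian charts of `∂B` whose boundary
distances are those of `B`, there is no retraction onto the boundary, and its volume is at most
`vol K + vol (B ∖ D)`.  As balls are minimal fillings in high dimension (library), `vol K ≥ vol D`
(`HG.Min`).  For the case of equality see the theorem ConvexRegionsHighDimension on boundary rigidity.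
-/

set_option autoImplicit false

namespace Pool.Agent.Results.MP_aeade1_gt.ConvexHighDimension

open Real MeasureTheory Metric Set InnerProductGeometry Pool.Agent.H241R3.FV
open Pool.Agent.N526.CP (hdist)

/-- Properties of the charts and of the boundary, which hold for Riemannian manifolds with compact
boundary: the boundary sphere is Lipschitz, the parts `D` of the charts do not meet the boundary,
and every nonempty open set contains a set of positive measure of the part `D` of a chart. -/
structure Regular {d : ℕ} {K : Type} [MetricSpace K] (S : Fill d K) : Prop where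
  lip : ∃ L : NNReal, LipschitzWith L S.bd
  off : ∀ k, ∀ p ∈ (S.chart k).D, (S.chart k).map p ∉ range S.bd
  supp : ∀ W : Set K, IsOpen W → W.Nonempty →
    ∃ k, volume {x | x ∈ (S.chart k).D ∧ (S.chart k).map x ∈ W} ≠ 0

/-- The central projection of the open hemisphere.  The point `X` of the open unit ball stands for
the point of the hemisphere with orthogonal projection `X`; great circles are mapped to straight
lines. -/
noncomputable def gnomonic {n : ℕ} (X : E n) : E n := (√(1 - ‖X‖ ^ 2))⁻¹ • X

/-- `F` is a homeomorphism of the closed unit ball onto a closed region in the open ball of radius `R`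
about the centre of the hemisphere, the open ball is mapped onto the interior of the region, and the
region is convex: its central projection is convex. -/
structure ConvexRegion {n : ℕ} (R : ℝ) (F : E n → E n) : Prop where
  cont : ContinuousOn F (closedBall 0 1)
  lt : ∀ y ∈ closedBall (0 : E n) 1, ‖F y‖ < sin R
  inj : InjOn F (closedBall 0 1)
  int : F '' ball 0 1 = interior (F '' closedBall 0 1)
  convex : Convex ℝ (gnomonic '' (F '' closedBall 0 1))

/-- The volume of the subset `A` of the hemisphere. -/
noncomputable def setVol {n : ℕ} (A : Set (E n)) : ℝ := ∫ x in A, (√(1 - ‖x‖ ^ 2))⁻¹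

/-- The point of the unit sphere `S^n` of `E (n + 1)`, in the open hemisphere with pole `c`, with
orthogonal projection `X`; `J` is a linear isometry onto the orthogonal complement of `c`. -/
noncomputable def pt {n : ℕ} (c : E (n + 1)) (J : E n →ₗᵢ[ℝ] E (n + 1)) (X : E n) : E (n + 1) :=
  √(1 - ‖X‖ ^ 2) • c + J X

/-- The cone over the interior of the region `D = F (closed unit ball)` of the sphere. -/
def cone {n : ℕ} (F : E n → E n) (c : E (n + 1)) (J : E n →ₗᵢ[ℝ] E (n + 1)) : Set (E (n + 1)) :=
  {z | ∃ t : ℝ, 0 < t ∧ ∃ X ∈ F '' ball 0 1, z = t • pt c J X}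

/-- `M` consists of the round piece, the closed hemisphere `H` with pole `m` without the interior of the
region `D = F (closed unit ball)` of the cap about `c`, and of the space `K`, glued along the boundary
of `D`. -/
structure Glued {n : ℕ} {K M : Type} [MetricSpace K] [MetricSpace M] (bd : Sph n → K)
    (F : E n → E n) (m c : E (n + 1)) (J : E n →ₗᵢ[ℝ] E (n + 1)) (j : K → M) (ι : E (n + 1) → M) :
    Prop where
  /-- `J` maps to the orthogonal complement of the unit vector `c` -/
  orth : ‖c‖ = 1 ∧ ∀ v, inner ℝ (J v) c = 0
  /-- the region is contained in the hemisphere -/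
  sub : ∀ y ∈ closedBall (0 : E n) 1, 0 ≤ inner ℝ (pt c J (F y)) m
  /-- the interior of the region is contained in the open hemisphere -/
  sub_int : ∀ y ∈ ball (0 : E n) 1, 0 < inner ℝ (pt c J (F y)) m
  /-- the map of the inner part is `1`-Lipschitz -/
  inside : ∀ x y, dist (j x) (j y) ≤ dist x y
  /-- the map of the round piece does not increase the lengths of great circle segments of the
  hemisphere which avoid the interior of the region -/
  outside : ∀ x y : E (n + 1), ‖x‖ = 1 → ‖y‖ = 1 → 0 ≤ inner ℝ x m → 0 ≤ inner ℝ y m → x ≠ -y →
    (∀ s t : ℝ, 0 ≤ s → 0 ≤ t → s • x + t • y ∉ cone F c J) → dist (ι x) (ι y) ≤ angle x y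
  /-- the maps agree on the boundary of the region -/
  glue : ∀ x : Sph n, ι (pt c J (F x)) = j (bd x)

/-- Antipodal points of the boundary sphere of the hemisphere with pole `m` have distance at least `π`
in `M`.  This holds if the boundary sphere has no shortcuts in `M`. -/
def FarAntipodes {n : ℕ} {M : Type} [MetricSpace M] (m : E (n + 1)) (ι : E (n + 1) → M) : Prop :=
  ∀ x : E (n + 1), ‖x‖ = 1 → inner ℝ x m = 0 → π ≤ dist (ι x) (ι (-x))

/-- Any two points of `K` are joined by a shortest path, in the form: there are points at all
intermediate distances from them. -/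
def Geodesic (K : Type) [MetricSpace K] : Prop :=
  ∀ (q q' : K) (t : ℝ), 0 ≤ t → t ≤ dist q q' → ∃ p, dist q p = t ∧ dist p q' = dist q q' - t

/-- Let `0 < R < π/2`.  There is `n₀` (with `n₀ = 2` if `sin² R ≤ 5/41`) such that for
`n = d + 1 ≥ max (n₀, 2)` the following holds.  Let `K` be a metric space with countably many Riemannian
charts of dimension `n` and with boundary sphere `S.bd : S^d → K`, onto which `K` does not retract.  Let
`D` be a closed convex region in the closed hemisphere `H` with pole `m` and in the open ball of radius
`R` about `c`, let `M` be the union of `H` without the interior of `D` and `K`, glued along the boundary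
of `D`, and suppose that antipodal points of the boundary sphere of `H` have distance at least `π` in `M`
(this holds if there are no shortcuts).
(1) The volume of `K` is at least the volume of `D`.
(2) If it is equal to it, if closed balls of `K` are compact and if shortest paths exist in `K`, then
there is an isometry `Φ` of `D` onto `K` with `Φ (F x) = S.bd x` for `x` in `S^d`. -/
theorem result (R : ℝ) (hR0 : 0 < R) (hR1 : R < π / 2) :
    ∃ n₀ : ℕ, (sin R ^ 2 ≤ 5 / 41 → n₀ = 2) ∧ ∀ d : ℕ, 1 ≤ d → n₀ ≤ d + 1 →
    ∀ (K : Type) [MetricSpace K] (S : Fill d K) (_ : S.NoRetraction) (_ : Regular S)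
      (F : E (d + 1) → E (d + 1)) (_ : ConvexRegion R F) (M : Type) [MetricSpace M]
      (m c : E (d + 2)) (J : E (d + 1) →ₗᵢ[ℝ] E (d + 2)) (j : K → M) (ι : E (d + 2) → M)
      (_ : Glued S.bd F m c J j ι) (_ : FarAntipodes m ι),
      ENNReal.ofReal (setVol (F '' ball 0 1)) ≤ S.vol ∧
      (ProperSpace K → Geodesic K → S.vol = ENNReal.ofReal (setVol (F '' ball 0 1)) →
        ∃ Φ : E (d + 1) → K,
          (∀ y ∈ F '' closedBall 0 1, ∀ z ∈ F '' closedBall 0 1, dist (Φ y) (Φ z) = hdist y z) ∧
          (∀ x : Sph (d + 1), Φ (F x) = S.bd x) ∧
          Φ '' (F '' closedBall 0 1) = univ) := by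
  obtain ⟨d₀, hd₀, h⟩ := H780.HG.Asm.final H780.HG.GLU.main (H780.HG.FILLG.main H780.HG.HLEN.main)
    H780.HG.HEP.main H780.HG.GRET.main (H780.HG.GEO.main H780.RG.SPA.main
    (H780.RG.SPB.main H780.RG.SPC.main) H780.RG.SPC.main) H780.HG.CORA.main
    (H780.RG.RIGI.main H780.RG.SPA.main H780.RG.SPC.main) R hR0 hR1
  obtain ⟨d₁, hd₁, h'⟩ := H780.HG.Min.minimal H780.HG.GLU.main
    (H780.HG.FILLG.main H780.HG.HLEN.main) H780.HG.HEP.main H780.HG.GRET.main R hR0 hR1
  have h1 : sin R < 1 := by
    have h2 : 0 < cos R := cos_pos_of_mem_Ioo ⟨by linarith, hR1⟩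
    have h3 := cos_sq_add_sin_sq R
    nlinarith
  refine ⟨max (max (d₀ + 1) (d₁ + 1)) 2, fun h2 => by rw [hd₀ h2, hd₁ h2]; rfl,
    fun d hd1 hd K _ S hnr hS F hF M _ m c J j ι hG hM => ?_⟩
  have hd₀' : d₀ ≤ d := by
    have e1 := le_max_left (max (d₀ + 1) (d₁ + 1)) 2
    have e2 := le_max_left (d₀ + 1) (d₁ + 1)
    omega
  have hd₁' : d₁ ≤ d := by
    have e1 := le_max_left (max (d₀ + 1) (d₁ + 1)) 2
    have e2 := le_max_right (d₀ + 1) (d₁ + 1)
    omega
  obtain ⟨L, hL⟩ := hS.lip
  have hreg : H780.RG.CReg F :=
    ⟨hF.cont, fun y hy => (hF.lt y hy).trans h1, hF.inj, hF.int, hF.convex⟩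
  have hdist : ∀ x y : Sph (d + 1), hdist (F x) (F y) ≤ dist (S.bd x) (S.bd y) :=
    H780.RO.dist_le H780.RO.CONE.main H780.RO.ARC.main hreg hG.orth.1 hG.orth.2
      (fun x => hG.sub x (sphere_subset_closedBall x.2)) hG.inside hG.outside hG.glue
      (H780.RO.nonshort (H780.RO.cone_pos hG.sub_int) hG.outside hM)
  exact ⟨h' d hd₁' K S hnr L hL hS.supp F hreg hF.lt hdist, fun hK hgeo hV =>
    h d hd₀' hd1 K hgeo S hnr L hL hS.supp hS.off F hreg hF.lt hdist hV.le⟩

end Pool.Agent.Results.MP_aeade1_gt.ConvexHighDimension
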