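import Pool.Agent.H780.RO.Anti
import Pool.Agent.H780.RO.ARC
import Pool.Agent.H780.RO.CONE
import Pool.Agent.Results.MP_07cd05_gt.ConvexSphericalRegions

/-!
# Fillings of the round sphere which are round outside a convex region, dimension at least three

Let `n = d + 1 ≥ 3`, let `H` be the closed hemisphere of `S^n` with pole `m`, and let `D` be a closed
convex subset of `H` which is contained in a ball of radius `arcsin s` of `S^n` with centre `c`, for
instance the intersection of `H` with this ball.  The centre `c` is arbitrary, for example it may be on
the boundary of `H` or outside of `H`, and `D` may meet the boundary of `H`.  The radius is in an explicit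
range: `s ≤ 0.88` for `n = 3` (61.6 degrees), `s ≤ 0.825` for `n = 4`, `(n + 3) s⁴ ≤ 2` for all `n`.  Let
`K` be an oriented Riemannian manifold, of any topology, with boundary a sphere, and let `M` be the
union of `H` without the interior of `D` and of `K`, glued along the boundary of `D`.  If antipodal
points of the boundary sphere of `H` have distance at least `π` in `M`, in particular if this sphere has no
shortcuts in `M`, then the volume of `K` is at least that of `D`; so the volume of
`M` is at least that of the hemisphere, and the conjecture of Gromov holds for all fillings which are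
round outside a ball of this radius with any centre (replace `D` by the intersection of the ball with
`H`).  If the volumes are equal, then `K` is isometric to `D`.

It is sufficient to take the volume of the part `A` of `K` near its boundary, of the points at distance
less than `r x` from some boundary point `bd x`, where `r x` is at least the distance of the corresponding
point `F x` of `D` from `c`, and only `A` has to be an oriented manifold; `K` is then any metric space with
compact closed balls, e.g. a complete Riemannian manifold.

Proof.  Let `a ≠ b` be boundary points of `D`.  The great circle through `a` and `b` is continued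
beyond `a` and beyond `b` until it meets the boundary of `H` in antipodal points `x` and `-x`.  As `D` is
convex, the arcs from `x` to `a` and from `b` to `-x` do not meet the interior of `D`.  So
`π ≤ d(x, -x) ≤ d(x, a) + d_M(a, b) + d(b, -x)`, and this gives `d_K(a, b) ≥ d(a, b)` (`ARC`,
`CONE`).  So `K` has at least the boundary distances of the convex region `D` of the ball about `c`, and
the inequality for regions of round balls (NearVolume) applies; for the case of equality see the
theorem ConvexSphericalRegions on boundary rigidity.
-/

set_option autoImplicit false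

open MeasureTheory Metric Set InnerProductGeometry

namespace Pool.Agent.Results.MP_aeade1_gt.RoundOutsideConvex

open Pool.Agent.H241R3.FV Pool.Agent.N526.CP Pool.Agent.N979.CP Pool.Agent.H780.NV
open Pool.Agent.Results.MP_aeade1_gt.RoundRegions (Adm setVol)

/-- The central projection of the open hemisphere.  The point `X` of the open unit ball stands for
the point of the hemisphere with orthogonal projection `X`; great circles are mapped to straight
lines. -/
noncomputable def gnomonic {n : ℕ} (X : E n) : E n := (√(1 - ‖X‖ ^ 2))⁻¹ • X

/-- `F` is a Lipschitz homeomorphism, preserving the orientation, of the closed unit ball onto a closed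
convex region (its central projection is convex) in the cap of radius `arcsin s`, the open ball is
mapped onto the interior; `r x > 0` is at least the distance of `F x` from the centre of the cap. -/
structure ConvexRegion {n : ℕ} (s : ℝ) (F : E n → E n) (r : Sph n → ℝ) : Prop where
  lip : ∃ L : NNReal, LipschitzOnWith L F (closedBall 0 1)
  range : ∀ y ∈ closedBall (0 : E n) 1, ‖F y‖ ≤ s
  inj : InjOn F (closedBall 0 1)
  int : F '' ball 0 1 = interior (F '' closedBall 0 1)
  convex : Convex ℝ (gnomonic '' (F '' closedBall 0 1))
  orient : ∀ᵐ y ∂(volume.restrict (ball (0 : E n) 1)), 0 ≤ (fderiv ℝ F y).det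
  radius : ∀ x : Sph n, 0 < r x ∧ Real.arcsin ‖F x‖ ≤ r x
  bdd : ∃ B : ℝ, ∀ x, r x ≤ B

/-- The point of the unit sphere `S^n` of `E (n + 1)`, in the open hemisphere with pole `c`, with
orthogonal projection `X`; `J` is a linear isometry onto the orthogonal complement of `c`. -/
noncomputable def pt {n : ℕ} (c : E (n + 1)) (J : E n →ₗᵢ[ℝ] E (n + 1)) (X : E n) : E (n + 1) :=
  √(1 - ‖X‖ ^ 2) • c + J X

/-- The cone over the interior of the region `D = F (closed unit ball)` of the sphere. -/
def cone {n : ℕ} (F : E n → E n) (c : E (n + 1)) (J : E n →ₗᵢ[ℝ] E (n + 1)) : Set (E (n + 1)) :=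
  {z | ∃ t : ℝ, 0 < t ∧ ∃ X ∈ F '' ball 0 1, z = t • pt c J X}

/-- `M` consists of the round piece, the closed hemisphere `H` with pole `m` without the interior of the
region `D = F (closed unit ball)` of the cap about `c`, and of the space `K`, glued along the boundary
of `D`. -/
structure Glued {n : ℕ} {K M : Type} [MetricSpace K] [MetricSpace M] (bd : Sph n → K)
    (F : E n → E n) (m c : E (n + 1)) (J : E n →ₗᵢ[ℝ] E (n + 1)) (j : K → M) (ι : E (n + 1) → M) :
    Prop where
  /-- `J` maps to the orthogonal complement of the unit vector `c` -/
  orth : ‖c‖ = 1 ∧ ∀ v, inner ℝ (J v) c = 0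
  /-- the region is contained in the hemisphere -/
  sub : ∀ y ∈ closedBall (0 : E n) 1, 0 ≤ inner ℝ (pt c J (F y)) m
  /-- the interior of the region is contained in the open hemisphere -/
  sub_int : ∀ y ∈ ball (0 : E n) 1, 0 < inner ℝ (pt c J (F y)) m
  /-- the map of the inner part is `1`-Lipschitz -/
  inside : ∀ x y, dist (j x) (j y) ≤ dist x y
  /-- the map of the round piece does not increase the lengths of great circle segments of the
  hemisphere which avoid the interior of the region -/
  outside : ∀ x y : E (n + 1), ‖x‖ = 1 → ‖y‖ = 1 → 0 ≤ inner ℝ x m → 0 ≤ inner ℝ y m → x ≠ -y →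
    (∀ s t : ℝ, 0 ≤ s → 0 ≤ t → s • x + t • y ∉ cone F c J) → dist (ι x) (ι y) ≤ angle x y
  /-- the maps agree on the boundary of the region -/
  glue : ∀ x : Sph n, ι (pt c J (F x)) = j (bd x)

/-- Antipodal points of the boundary sphere of the hemisphere with pole `m` have distance at least `π`
in `M`.  This holds if the boundary sphere has no shortcuts in `M`. -/
def FarAntipodes {n : ℕ} {M : Type} [MetricSpace M] (m : E (n + 1)) (ι : E (n + 1) → M) : Prop :=
  ∀ x : E (n + 1), ‖x‖ = 1 → inner ℝ x m = 0 → Real.pi ≤ dist (ι x) (ι (-x))

/-- Any two points of `K` are joined by a shortest path, in the form: there are points at all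
intermediate distances from them. -/
def Geodesic (K : Type) [MetricSpace K] : Prop :=
  ∀ (q q' : K) (t : ℝ), 0 ≤ t → t ≤ dist q q' → ∃ p, dist q p = t ∧ dist p q' = dist q q' - t

/-- Let `n = d + 1 ≥ 3`, let `s > 0` be admissible, let `K` be a metric space with compact closed balls,
for example a complete Riemannian manifold, and let the subset `N` of `K` be an oriented Riemannian
manifold with boundary `bd : S^d → K` (`N = K` if `K` is itself oriented and has no other boundary).
Let `D` be a convex region in the closed hemisphere `H` with pole `m` and in the ball of radius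
`arcsin s` about `c`, let `M` be the union of `H` without the interior of `D` and `K`, glued along the
boundary of `D`, and suppose that antipodal points of the boundary sphere of `H` have distance at least
`π` in `M` (this holds if there are no shortcuts).  Let `N` contain
the set `A` of the points of `K` at distance less than `r x` from some boundary point `bd x`.
(1) The volume of `A` is at least the volume of `D`.
(2) If it is equal to it and if shortest paths exist in `K`, then there is an isometric map `Φ` of `D`
to `K` with `Φ (F x) = bd x` on the boundary, whose image contains `A` and which maps `D` without the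
centre `c` to `A`.  If `N = K`, then `K` is the image of `Φ`. -/
theorem result (d : ℕ) (hd : 2 ≤ d) (s : ℝ) (h0 : 0 < s) (hs : Adm d s)
    (K : Type) [MetricSpace K] [ProperSpace K] (bd : Sph (d + 1) → K) (N : Set K)
    (S : NFill (d + 1) K bd N) (F : E (d + 1) → E (d + 1)) (r : Sph (d + 1) → ℝ)
    (hF : ConvexRegion s F r) (hN : near bd r ⊆ N) (M : Type) [MetricSpace M] (m c : E (d + 2))
    (J : E (d + 1) →ₗᵢ[ℝ] E (d + 2)) (j : K → M) (ι : E (d + 2) → M)
    (hG : Glued bd F m c J j ι) (hM : FarAntipodes m ι) :
    ENNReal.ofReal (setVol (F '' ball 0 1)) ≤ S.part (near bd r) ∧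
    (Geodesic K → S.part (near bd r) = ENNReal.ofReal (setVol (F '' ball 0 1)) →
      ∃ Φ : E (d + 1) → K,
        (∀ y ∈ F '' closedBall 0 1, ∀ z ∈ F '' closedBall 0 1, dist (Φ y) (Φ z) = hdist y z) ∧
        (∀ x : Sph (d + 1), Φ (F x) = bd x) ∧
        near bd r ⊆ Φ '' (F '' closedBall 0 1) ∧
        Φ '' (F '' closedBall 0 1 \ {0}) ⊆ near bd r ∧
        (N = univ → Φ '' (F '' closedBall 0 1) = univ)) := by
  have hG2 : Good2 d s := Fin.good2_all (by omega) h0 hs
  obtain ⟨⟨L, hL⟩, hr, hinj, hint, hconv, hor, hrad, B, hB⟩ := hF
  have hreg : H780.RG.CReg F := ⟨hL.continuousOn, fun y hy => (hr y hy).trans_lt hG2.2.1, hinj,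
    hint, hconv⟩
  have hdist : ∀ x y : Sph (d + 1), hdist (F x) (F y) ≤ dist (bd x) (bd y) :=
    H780.RO.dist_le H780.RO.CONE.main H780.RO.ARC.main hreg hG.orth.1 hG.orth.2
      (fun x => hG.sub x (sphere_subset_closedBall x.2)) hG.inside hG.outside hG.glue
      (H780.RO.nonshort (H780.RO.cone_pos hG.sub_int) hG.outside hM)
  have hdom : NearVolume.Dominates bd s F r := ⟨⟨L, hL⟩, hr, hdist, hrad, B, hB⟩
  refine ⟨(((NearVolume.result d (by omega) s h0 hs K bd N S).1 F r hdom hN).2
    (hinj.mono ball_subset_closedBall) hor), fun hK hV => ?_⟩
  exact MP_07cd05_gt.ConvexSphericalRegions.result d hd s h0 hs K hK bd N S F r hdom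
    ⟨hinj, hint, hconv⟩ hor hN hV.le

end Pool.Agent.Results.MP_aeade1_gt.RoundOutsideConvex
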